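import Pool.Agent.H571Z.Cor

set_option autoImplicit false

namespace Pool.Agent.Results.MP_d64ee4_lc.AllFieldsNotRigid

universe u v

/-- For every `ε > 0` there are `η > 0` and `N₀` such that, for every field `F`, every finite
abelian group `G` of order `N ≥ N₀` and every `f : G → F`, the `G`-circulant matrix with entries
`f (x - y)` differs from a matrix over `F` of rank at most `N ^ (1 - η)` in at most `N ^ ε` entries
of each row and of each column. -/
theorem result (ε : ℝ) (hε : 0 < ε) : ∃ η : ℝ, 0 < η ∧ ∃ N₀ : ℕ,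
    ∀ (F : Type u) [Field F] (G : Type v) [AddCommGroup G] [Fintype G] (f : G → F),
      N₀ ≤ Fintype.card G → ∃ A : Matrix G G F,
        (A.rank : ℝ) ≤ (Fintype.card G : ℝ) ^ (1 - η) ∧
        (∀ x : G, (({y : G | A x y ≠ f (x - y)}.ncard : ℕ) : ℝ) ≤ (Fintype.card G : ℝ) ^ ε) ∧
        (∀ y : G, (({x : G | A x y ≠ f (x - y)}.ncard : ℕ) : ℝ) ≤ (Fintype.card G : ℝ) ^ ε) := by
  obtain ⟨η, hη, N₀, h⟩ := Pool.Agent.H571Z.main_nr.{u, v} hε
  exact ⟨η, hη, N₀, fun F _ G _ _ f hN => (h F G f hN).near⟩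

end Pool.Agent.Results.MP_d64ee4_lc.AllFieldsNotRigid
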